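import Pool.Agent.H30.FA.TC

/-!
# NEA: two fields of lines which are not orthogonal
-/

set_option autoImplicit false

open Pool.Agent.H58.FL Pool.Agent.H30.FA

namespace Pool.Agent.H17.FA

theorem nea_arg {z : ℂ} {p : ℝ} (hp : 1 / 4 ≤ p) (h : ‖z - (p : ℂ)‖ ≤ 1 / 50) :
    |z.arg| ≤ 1 / 4 := by
  have hre : |z.re - p| ≤ 1 / 50 := by
    have h1 := Complex.abs_re_le_norm (z - (p : ℂ))
    rw [Complex.sub_re, Complex.ofReal_re] at h1
    linarith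
  have him : |z.im| ≤ 1 / 50 := by
    have h1 := Complex.abs_im_le_norm (z - (p : ℂ))
    rw [Complex.sub_im, Complex.ofReal_im, sub_zero] at h1
    linarith
  have hre' : 23 / 100 ≤ z.re := by
    have := (abs_le.1 hre).1
    linarith
  have hpos : 0 < z.re := by linarith
  have hlt : |z.arg| < Real.pi / 2 := Complex.abs_arg_lt_pi_div_two_iff.2 (Or.inl hpos)
  have hnorm : 23 / 100 ≤ ‖z‖ := le_trans hre' (Complex.re_le_norm z)
  have hsin : |Real.sin z.arg| ≤ 1 / 11 := by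
    rw [Complex.sin_arg, abs_div, abs_of_nonneg (norm_nonneg z), div_le_iff₀ (by linarith)]
    linarith
  have hsa : |Real.sin z.arg| = Real.sin |z.arg| := by
    rcases le_total 0 z.arg with h0 | h0
    · rw [abs_of_nonneg h0, abs_of_nonneg]
      refine Real.sin_nonneg_of_nonneg_of_le_pi h0 ?_
      rw [abs_of_nonneg h0] at hlt
      have := Real.pi_pos
      linarith
    · rw [abs_of_nonpos h0, Real.sin_neg, abs_of_nonpos]
      refine Real.sin_nonpos_of_nonpos_of_neg_pi_le h0 ?_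
      rw [abs_of_nonpos h0] at hlt
      have := Real.pi_pos
      linarith
  have hj := Real.mul_le_sin (abs_nonneg z.arg) hlt.le
  rw [← hsa] at hj
  have hpi := Real.pi_lt_four
  have hpi0 := Real.pi_pos
  have h1 : 2 / Real.pi * |z.arg| ≤ 1 / 11 := le_trans hj hsin
  rw [div_mul_eq_mul_div, div_le_iff₀ hpi0] at h1
  linarith

section
variable {E : Type} [NormedAddCommGroup E] [InnerProductSpace ℂ E]

theorem nea_dist {a b : E} (ha : ‖a‖ = 1) (hb : ‖b‖ = 1) {s : ℝ}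
    (h : 1 - s ≤ ‖inner ℂ a b‖ ^ 2) : ‖b - (inner ℂ a b : ℂ) • a‖ ^ 2 ≤ s := by
  have h1 : ‖b - (inner ℂ a b : ℂ) • a‖ ^ 2 = 1 - ‖inner ℂ a b‖ ^ 2 := by
    have e := @norm_sub_sq ℂ E _ _ _ b ((inner ℂ a b : ℂ) • a)
    rw [e, norm_smul, ha, hb, inner_smul_right, mul_one]
    have h2 : (inner ℂ a b : ℂ) * inner ℂ b a = ((‖inner ℂ a b‖ ^ 2 : ℝ) : ℂ) := by
      rw [← inner_conj_symm b a, Complex.mul_conj, Complex.normSq_eq_norm_sq]
    rw [h2]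
    change (1 : ℝ) ^ 2 - 2 * (((‖inner ℂ a b‖ ^ 2 : ℝ) : ℂ)).re + ‖inner ℂ a b‖ ^ 2 = _
    rw [Complex.ofReal_re]
    ring
  rw [h1]
  linarith

theorem nea_c {a a' b b' : E} (ha : ‖a‖ = 1) (ha' : ‖a'‖ = 1) (hb : ‖b‖ = 1) (hb' : ‖b'‖ = 1)
    (h1 : 1 - 1 / 10000 ≤ ‖inner ℂ a a'‖ ^ 2) (h2 : 1 - 1 / 10000 ≤ ‖inner ℂ b b'‖ ^ 2)
    (h3 : 1 / 2 ≤ ‖inner ℂ a b‖ ^ 2) :
    |(inner ℂ a a' * inner ℂ a' b' * inner ℂ b' b * inner ℂ b a : ℂ).arg| ≤ 1 / 4 := by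
  obtain ⟨u, hu⟩ : ∃ u : E, u = a' - (inner ℂ a a' : ℂ) • a := ⟨_, rfl⟩
  obtain ⟨v, hv⟩ : ∃ v : E, v = b' - (inner ℂ b b' : ℂ) • b := ⟨_, rfl⟩
  have hun : ‖u‖ ≤ 1 / 100 := by
    have := nea_dist ha ha' h1
    rw [← hu] at this
    have h0 := norm_nonneg u
    nlinarith
  have hvn : ‖v‖ ≤ 1 / 100 := by
    have := nea_dist hb hb' h2
    rw [← hv] at this
    have h0 := norm_nonneg v
    nlinarith
  have hal : ‖(inner ℂ a a' : ℂ)‖ ≤ 1 := by
    have := norm_inner_le_norm (𝕜 := ℂ) a a'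
    rwa [ha, ha', mul_one] at this
  have hbe : ‖(inner ℂ b b' : ℂ)‖ ≤ 1 := by
    have := norm_inner_le_norm (𝕜 := ℂ) b b'
    rwa [hb, hb', mul_one] at this
  have hga : ‖(inner ℂ a b : ℂ)‖ ≤ 1 := by
    have := norm_inner_le_norm (𝕜 := ℂ) a b
    rwa [ha, hb, mul_one] at this
  have hga' : ‖(inner ℂ b a : ℂ)‖ ≤ 1 := by
    have := norm_inner_le_norm (𝕜 := ℂ) b a
    rwa [ha, hb, mul_one] at this
  have hbe' : ‖(inner ℂ b' b : ℂ)‖ ≤ 1 := by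
    have := norm_inner_le_norm (𝕜 := ℂ) b' b
    rwa [hb, hb', mul_one] at this
  -- the middle factor
  have hmid : (inner ℂ a' b' : ℂ) = (starRingEnd ℂ) (inner ℂ a a') * inner ℂ b b' * inner ℂ a b +
      (inner ℂ u b' + (starRingEnd ℂ) (inner ℂ a a') * inner ℂ a v) := by
    have e1 : a' = u + (inner ℂ a a' : ℂ) • a := by rw [hu]; abel
    have e2 : b' = v + (inner ℂ b b' : ℂ) • b := by rw [hv]; abel
    have e3 : (inner ℂ a' b' : ℂ) = inner ℂ u b' + (starRingEnd ℂ) (inner ℂ a a') * inner ℂ a b' := by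
      conv_lhs => rw [e1]
      rw [inner_add_left, inner_smul_left]
    have e4 : (inner ℂ a b' : ℂ) = inner ℂ a v + inner ℂ b b' * inner ℂ a b := by
      conv_lhs => rw [e2]
      rw [inner_add_right, inner_smul_right]
    rw [e3, e4]
    ring
  obtain ⟨p, hp⟩ : ∃ p : ℝ, p = ‖inner ℂ a a'‖ ^ 2 * ‖inner ℂ b b'‖ ^ 2 * ‖inner ℂ a b‖ ^ 2 :=
    ⟨_, rfl⟩
  have hp4 : 1 / 4 ≤ p := by
    rw [hp]
    have h4 : (1 - 1 / 10000) * (1 - 1 / 10000) ≤ ‖inner ℂ a a'‖ ^ 2 * ‖inner ℂ b b'‖ ^ 2 :=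
      mul_le_mul h1 h2 (by norm_num) (by positivity)
    have h5 : (1 - 1 / 10000) * (1 - 1 / 10000) * (1 / 2) ≤
        ‖inner ℂ a a'‖ ^ 2 * ‖inner ℂ b b'‖ ^ 2 * ‖inner ℂ a b‖ ^ 2 :=
      mul_le_mul h4 h3 (by norm_num) (by positivity)
    refine le_trans ?_ h5
    norm_num
  refine nea_arg hp4 ?_
  have hn : ∀ x y : E, (inner ℂ x y : ℂ) * inner ℂ y x = ((‖inner ℂ x y‖ ^ 2 : ℝ) : ℂ) := by
    intro x y
    rw [← inner_conj_symm y x, Complex.mul_conj, Complex.normSq_eq_norm_sq]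
  have hn' : ∀ x y : E, (inner ℂ x y : ℂ) * (starRingEnd ℂ) (inner ℂ x y) =
      ((‖inner ℂ x y‖ ^ 2 : ℝ) : ℂ) := by
    intro x y
    rw [Complex.mul_conj, Complex.normSq_eq_norm_sq]
  have hmain : (inner ℂ a a' * inner ℂ a' b' * inner ℂ b' b * inner ℂ b a : ℂ) - (p : ℂ) =
      inner ℂ a a' * (inner ℂ u b' + (starRingEnd ℂ) (inner ℂ a a') * inner ℂ a v) *
        inner ℂ b' b * inner ℂ b a := by
    rw [hmid, hp]
    push_cast
    have k1 := hn' a a'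
    have k2 := hn b b'
    have k3 := hn a b
    push_cast at k1 k2 k3
    rw [← k1, ← k2, ← k3]
    ring
  rw [hmain, norm_mul, norm_mul, norm_mul]
  have hmidn : ‖(inner ℂ u b' + (starRingEnd ℂ) (inner ℂ a a') * inner ℂ a v : ℂ)‖ ≤ 1 / 50 := by
    refine le_trans (norm_add_le _ _) ?_
    have k1 : ‖(inner ℂ u b' : ℂ)‖ ≤ 1 / 100 := by
      have := norm_inner_le_norm (𝕜 := ℂ) u b'
      rw [hb', mul_one] at this
      linarith
    have k2 : ‖(inner ℂ a v : ℂ)‖ ≤ 1 / 100 := by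
      have := norm_inner_le_norm (𝕜 := ℂ) a v
      rw [ha, one_mul] at this
      linarith
    rw [norm_mul, RCLike.norm_conj]
    have k3 := norm_nonneg (inner ℂ a a' : ℂ)
    have k4 := norm_nonneg (inner ℂ a v : ℂ)
    nlinarith
  have q1 : ‖(inner ℂ a a' : ℂ)‖ *
      ‖(inner ℂ u b' + (starRingEnd ℂ) (inner ℂ a a') * inner ℂ a v : ℂ)‖ ≤ 1 * (1 / 50) :=
    mul_le_mul hal hmidn (norm_nonneg _) zero_le_one
  have q2 := mul_le_mul q1 hbe' (norm_nonneg _) (by norm_num : (0 : ℝ) ≤ 1 * (1 / 50))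
  have q3 := mul_le_mul q2 hga' (norm_nonneg _) (by norm_num : (0 : ℝ) ≤ 1 * (1 / 50) * 1)
  refine le_trans q3 (by norm_num)

end

theorem pf_NEA (hSPH : T_SPH) : T_NEA := by
  obtain ⟨s0, hs0, hs⟩ := hSPH (1 / 4) (by norm_num)
  refine ⟨min s0 (1 / 10000), lt_min hs0 (by norm_num), ?_⟩
  intro X E _ _ f g K hf hg hK
  obtain ⟨c, hc⟩ : ∃ c : X → X → ℂ, c = fun x y =>
    inner ℂ (f x) (f y) * inner ℂ (f y) (g y) * inner ℂ (g y) (g x) * inner ℂ (g x) (f x) :=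
    ⟨_, rfl⟩
  refine ⟨fun x y => (c x y).arg / (2 * Real.pi), ?_⟩
  intro S hS x hx y hy z hz
  have hle0 : ∀ {t : ℝ}, 1 - min s0 (1 / 10000) ≤ t → 1 - s0 ≤ t := by
    intro t ht
    have := min_le_left s0 (1 / 10000)
    linarith
  have hle1 : ∀ {t : ℝ}, 1 - min s0 (1 / 10000) ≤ t → 1 - 1 / 10000 ≤ t := by
    intro t ht
    have := min_le_right s0 (1 / 10000)
    linarith
  have hff := fun {u v : X} (hu : u ∈ S) (hv : v ∈ S) => (hK S hS u hu v hv).1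
  have hgg := fun {u v : X} (hu : u ∈ S) (hv : v ∈ S) => (hK S hS u hu v hv).2.1
  have hfg := fun {u : X} (hu : u ∈ S) => (hK S hS u hu u hu).2.2
  have hcb : ∀ {u v : X}, u ∈ S → v ∈ S → |(c u v).arg| ≤ 1 / 4 := by
    intro u v hu hv
    rw [hc]
    exact nea_c (hf u) (hf v) (hg u) (hg v) (hle1 (hff hu hv)) (hle1 (hgg hu hv)) (hfg hu)
  have haf : |ar (f x) (f y) (f z)| ≤ 1 / 4 :=
    hs E _ _ _ (hf x) (hf y) (hf z) (hle0 (hff hx hy)) (hle0 (hff hy hz)) (hle0 (hff hz hx))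
  have hag : |ar (g x) (g y) (g z)| ≤ 1 / 4 :=
    hs E _ _ _ (hg x) (hg y) (hg z) (hle0 (hgg hx hy)) (hle0 (hgg hy hz)) (hle0 (hgg hz hx))
  have hf0 : ∀ {u v : X}, u ∈ S → v ∈ S → (inner ℂ (f u) (f v) : ℂ) ≠ 0 := by
    intro u v hu hv h
    have := hle1 (hff hu hv)
    rw [h, norm_zero] at this
    norm_num at this
  have hg0 : ∀ {u v : X}, u ∈ S → v ∈ S → (inner ℂ (g u) (g v) : ℂ) ≠ 0 := by
    intro u v hu hv h
    have := hle1 (hgg hu hv)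
    rw [h, norm_zero] at this
    norm_num at this
  have hfg0 : ∀ {u : X}, u ∈ S → (inner ℂ (f u) (g u) : ℂ) ≠ 0 := by
    intro u hu h
    have := hfg hu
    rw [h, norm_zero] at this
    norm_num at this
  have hgf0 : ∀ {u : X}, u ∈ S → (inner ℂ (g u) (f u) : ℂ) ≠ 0 := by
    intro u hu h
    exact hfg0 hu (by rw [← inner_conj_symm, h, map_zero])
  have hc0 : ∀ {u v : X}, u ∈ S → v ∈ S → c u v ≠ 0 := by
    intro u v hu hv
    rw [hc]
    exact mul_ne_zero (mul_ne_zero (mul_ne_zero (hf0 hu hv) (hfg0 hv)) (hg0 hv hu)) (hgf0 hu)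
  -- the product
  obtain ⟨Tf, hTf⟩ : ∃ Tf : ℂ, Tf = inner ℂ (f x) (f y) * inner ℂ (f y) (f z) *
    inner ℂ (f z) (f x) := ⟨_, rfl⟩
  obtain ⟨Tg, hTg⟩ : ∃ Tg : ℂ, Tg = inner ℂ (g x) (g y) * inner ℂ (g y) (g z) *
    inner ℂ (g z) (g x) := ⟨_, rfl⟩
  have hTf0 : Tf ≠ 0 := by
    rw [hTf]
    exact mul_ne_zero (mul_ne_zero (hf0 hx hy) (hf0 hy hz)) (hf0 hz hx)
  have hTg0 : Tg ≠ 0 := by
    rw [hTg]
    exact mul_ne_zero (mul_ne_zero (hg0 hx hy) (hg0 hy hz)) (hg0 hz hx)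
  have hnn : ∀ u : X, (inner ℂ (g u) (f u) : ℂ) * inner ℂ (f u) (g u) =
      ((‖inner ℂ (f u) (g u)‖ ^ 2 : ℝ) : ℂ) := by
    intro u
    rw [← inner_conj_symm (g u) (f u), mul_comm, Complex.mul_conj, Complex.normSq_eq_norm_sq]
  obtain ⟨r, hr⟩ : ∃ r : ℝ, r = ‖inner ℂ (f x) (g x)‖ ^ 2 * ‖inner ℂ (f y) (g y)‖ ^ 2 *
    ‖inner ℂ (f z) (g z)‖ ^ 2 := ⟨_, rfl⟩
  have hr0 : 0 < r := by
    rw [hr]
    have h1 := norm_pos_iff.2 (hfg0 hx)
    have h2 := norm_pos_iff.2 (hfg0 hy)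
    have h3 := norm_pos_iff.2 (hfg0 hz)
    positivity
  have hprod : c y z * (starRingEnd ℂ) (c x z) * c x y = (r : ℂ) * (Tf * (starRingEnd ℂ) Tg) := by
    rw [hr, hTf, hTg, hc]
    push_cast
    have k1 := hnn x
    have k2 := hnn y
    have k3 := hnn z
    push_cast at k1 k2 k3
    rw [← k1, ← k2, ← k3]
    simp only [map_mul, inner_conj_symm]
    ring
  have hang : (((c y z).arg - (c x z).arg + (c x y).arg : ℝ) : Real.Angle) =
      ((ar (f x) (f y) (f z) - ar (g x) (g y) (g z) : ℝ) : Real.Angle) := by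
    have hcx : (starRingEnd ℂ) (c x z) ≠ 0 := (map_ne_zero _).2 (hc0 hx hz)
    have hTg' : (starRingEnd ℂ) Tg ≠ 0 := (map_ne_zero _).2 hTg0
    have k1 : ((c y z * (starRingEnd ℂ) (c x z) * c x y).arg : Real.Angle) =
        ((c y z).arg : Real.Angle) - ((c x z).arg : Real.Angle) + ((c x y).arg : Real.Angle) := by
      rw [Complex.arg_mul_coe_angle (mul_ne_zero (hc0 hy hz) hcx) (hc0 hx hy),
        Complex.arg_mul_coe_angle (hc0 hy hz) hcx, Complex.arg_conj_coe_angle, sub_eq_add_neg]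
    have k2 : (((r : ℂ) * (Tf * (starRingEnd ℂ) Tg)).arg : Real.Angle) =
        (Tf.arg : Real.Angle) - (Tg.arg : Real.Angle) := by
      rw [Complex.arg_real_mul _ hr0, Complex.arg_mul_coe_angle hTf0 hTg',
        Complex.arg_conj_coe_angle, sub_eq_add_neg]
    rw [Real.Angle.coe_add, Real.Angle.coe_sub, ← k1, hprod, k2, Real.Angle.coe_sub]
    unfold ar
    rw [hTf, hTg]
  obtain ⟨k, hk⟩ := Real.Angle.angle_eq_iff_two_pi_dvd_sub.1 hang
  have hb1 := abs_le.1 (hcb hy hz)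
  have hb2 := abs_le.1 (hcb hx hz)
  have hb3 := abs_le.1 (hcb hx hy)
  have hb4 := abs_le.1 haf
  have hb5 := abs_le.1 hag
  have hpi := Real.pi_gt_three
  have hk0 : k = 0 := by
    by_contra hne
    have h1 : (1 : ℝ) ≤ |(k : ℝ)| := by
      have : (1 : ℤ) ≤ |k| := Int.one_le_abs hne
      exact_mod_cast this
    have h2 : |2 * Real.pi * (k : ℝ)| ≤ 5 / 4 := by
      rw [← hk, abs_le]
      constructor <;> linarith
    rw [abs_mul, abs_of_pos (by linarith : (0 : ℝ) < 2 * Real.pi)] at h2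
    nlinarith
  rw [hk0, Int.cast_zero, mul_zero] at hk
  unfold up d1
  have hpi0 : (2 * Real.pi) ≠ 0 := by linarith
  have : ar (f x) (f y) (f z) - ar (g x) (g y) (g z) =
      (c y z).arg - (c x z).arg + (c x y).arg := by linarith
  rw [← sub_div, this]
  ring

end Pool.Agent.H17.FA
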